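import Pool.Agent.Q33.Cub.One
import Pool.Agent.Q33.Del.Basic

/-! Sun's congruence for `a(0) + ⋯ + a(p-1)` modulo `p^2`, `p ≡ 1 (mod 3)`. -/

namespace Pool.Agent.Results.MP_2064c1_nt.PartialSums

open Finset

/-- `a(n) = ∑_j C(n+j,j) C(n,j) C(n-j,j)` -/
def a (n : ℕ) : ℤ :=
  ∑ j ∈ range (n + 1), ((n + j).choose j : ℤ) * (n.choose j : ℤ) * ((n - j).choose j : ℤ)

open Pool.Agent.Q33.Cub (T sum_a T_mul choose_add_self choose_pred central hh ph f_one_zero eval_f lin_ne1 hh_eq1 ph_zero)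
open Pool.Agent.Q33.Del (choose_mul_succ_right)

theorem a_lib (n : ℕ) : a n = Pool.Agent.Q33.Cub.a n := by
  unfold a Pool.Agent.Q33.Cub.a
  refine sum_congr rfl fun j _ => ?_
  ring

/-- `X_l = C(p-1,l) C(p+l,l)` -/
def X (p l : ℕ) : ℤ := ((p - 1).choose l : ℤ) * ((p + l).choose l : ℤ)

theorem coprime_sq {p : ℕ} (hp : p.Prime) {l : ℕ} (h0 : 0 < l) (h : l < p) (a : ℤ)
    (hd : (p : ℤ) ^ 2 ∣ (l : ℤ) ^ 2 * a) : (p : ℤ) ^ 2 ∣ a := by
  have hc : IsCoprime ((p : ℤ) ^ 2) ((l : ℤ) ^ 2) := by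
    apply IsCoprime.pow
    rw [Nat.isCoprime_iff_coprime]
    exact (Nat.Prime.coprime_iff_not_dvd hp).2 (Nat.not_dvd_of_pos_of_lt h0 h)
  exact hc.dvd_of_dvd_mul_left hd

theorem X_congr {p : ℕ} (hp : p.Prime) (l : ℕ) (hl : l < p) : (p : ℤ) ^ 2 ∣ X p l - (-1) ^ l := by
  induction l with
  | zero => simp [X]
  | succ l ih =>
    have h1 := choose_mul_succ_right (p - 1) l
    have h2 : ((p + (l + 1)).choose (l + 1) : ℤ) * ((l : ℤ) + 1)
        = ((p + l).choose l : ℤ) * ((p : ℤ) + l + 1) := by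
      have := Nat.add_one_mul_choose_eq (p + l) l
      rw [show p + (l + 1) = p + l + 1 by ring]
      have h : (((p + l + 1) * (p + l).choose l : ℕ) : ℤ)
          = (((p + l + 1).choose (l + 1) * (l + 1) : ℕ) : ℤ) := by
        exact_mod_cast this
      push_cast at h
      linear_combination -h
    have hp1 : ((p - 1 : ℕ) : ℤ) = (p : ℤ) - 1 := by
      have := hp.one_lt
      push_cast [Nat.cast_sub (show 1 ≤ p by omega)]
      ring
    rw [hp1] at h1
    have h3 : ((l + 1 : ℕ) : ℤ) ^ 2 * (X p (l + 1) + X p l) = (p : ℤ) ^ 2 * X p l := by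
      unfold X
      push_cast
      linear_combination ((p + (l + 1)).choose (l + 1) : ℤ) * ((l : ℤ) + 1) * h1
        + ((p - 1).choose l : ℤ) * ((p : ℤ) - 1 - l) * h2
    have h4 : (p : ℤ) ^ 2 ∣ X p (l + 1) + X p l := by
      apply coprime_sq hp (Nat.succ_pos l) hl
      rw [h3]
      exact Dvd.intro _ rfl
    have h5 := dvd_sub h4 (ih (by omega))
    have h6 : X p (l + 1) - (-1) ^ (l + 1) = X p (l + 1) + X p l - (X p l - (-1) ^ l) := by
      rw [pow_succ]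
      ring
    rw [h6]
    exact h5

theorem T_mid {p n : ℕ} (hp : p.Prime) (hn : p = 6 * n + 1) :
    (p : ℤ) ^ 2 ∣ T p (2 * n) - ((2 * (2 * n)).choose (2 * n) : ℤ) := by
  have h1 : T p (2 * n) = ((2 * (2 * n)).choose (2 * n) : ℤ) * X p (2 * n) := by
    unfold T X
    have e1 : (p + 2 * n).choose (3 * (2 * n) + 1) = (p + 2 * n).choose (2 * n) := by
      rw [show 3 * (2 * n) + 1 = p by omega]
      exact Nat.choose_symm_add
    have e2 : 3 * (2 * n) = p - 1 := by omega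
    rw [e1, e2]
    ring
  have h2 := X_congr hp (2 * n) (by omega)
  rw [Even.neg_one_pow (even_two_mul n)] at h2
  obtain ⟨c, hc⟩ := h2
  refine ⟨((2 * (2 * n)).choose (2 * n) : ℤ) * c, ?_⟩
  rw [h1]
  linear_combination ((2 * (2 * n)).choose (2 * n) : ℤ) * hc

theorem exists_T' {p : ℕ} [Fact p.Prime] {n : ℕ} (hn : p = 6 * n + 1) {j : ℕ} (hj : j ≤ hh p) (hj2 : j ≠ 2 * n) :
    ∃ t : ℤ, T p j = p * t ∧ (t : ZMod p) = ph p j := by
  have hp : p.Prime := Fact.out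
  have h1 := T_mul (p := p) (j := j) hp.pos
  have hh' := hh_eq1 hn
  have hne := lin_ne1 hn (e := j) (by omega) hj2 (by omega)
  have hnd : ¬ (p : ℤ) ∣ (3 * (j : ℤ) + 1) := by
    intro h
    apply hne
    have := (ZMod.intCast_zmod_eq_zero_iff_dvd (3 * (j : ℤ) + 1) p).2 h
    push_cast at this
    exact this
  have hd : (p : ℤ) ∣ T p j := by
    have h2 : (p : ℤ) ∣ (3 * (j : ℤ) + 1) * T p j := by
      rw [h1]
      exact Dvd.intro _ rfl
    exact ((Nat.prime_iff_prime_int.1 hp).dvd_or_dvd h2).resolve_left hnd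
  obtain ⟨t, ht⟩ := hd
  refine ⟨t, ht, ?_⟩
  have hp0 : (p : ℤ) ≠ 0 := by exact_mod_cast hp.ne_zero
  have h3 : (3 * (j : ℤ) + 1) * t
      = ((2 * j).choose j : ℤ) * ((p + j).choose j : ℤ) * ((p - 1).choose (2 * j) : ℤ) := by
    apply mul_left_cancel₀ hp0
    rw [← h1, ht]
    ring
  have h4 := congrArg (fun z : ℤ => (z : ZMod p)) h3
  push_cast at h4
  rw [choose_add_self (by omega), choose_pred (by omega), central (h := hh p) (by omega) (by omega)] at h4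
  rw [pow_mul, neg_one_sq, one_pow, mul_one, mul_one] at h4
  unfold ph
  rw [eq_div_iff hne, ← h4]
  ring

/-- **MP_2064c1**, Q1: `a(0) + ⋯ + a(p-1) ≡ C(2m,m) (mod p^2)` with `m = (p-1)/3`, for every prime
`p ≡ 1 (mod 3)`. -/
theorem result (p : ℕ) (hp : p.Prime) (h3 : p % 3 = 1) :
    (p : ℤ) ^ 2 ∣ ∑ k ∈ range p, a k - ((2 * ((p - 1) / 3)).choose ((p - 1) / 3) : ℤ) := by
  have : Fact p.Prime := ⟨hp⟩
  have hodd := hp.eq_two_or_odd
  have h1 := hp.one_lt
  obtain ⟨n, hn⟩ : ∃ n, p = 6 * n + 1 := ⟨(p - 1) / 6, by omega⟩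
  have hh' := hh_eq1 hn
  have hm : (p - 1) / 3 = 2 * n := by omega
  rw [hm]
  have hsum : ∑ k ∈ range p, a k = ∑ j ∈ range (hh p + 1), T p j := by
    rw [← sum_a (p := p) (h := hh p) (by omega)]
    exact sum_congr rfl fun k _ => a_lib k
  have hex : ∀ j : ℕ, ∃ t : ℤ, j ≤ hh p → j ≠ 2 * n → T p j = p * t ∧ (t : ZMod p) = ph p j := by
    intro j
    by_cases hj : j ≤ hh p ∧ j ≠ 2 * n
    · obtain ⟨t, ht⟩ := exists_T' hn hj.1 hj.2
      exact ⟨t, fun _ _ => ht⟩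
    · exact ⟨0, fun h h' => absurd ⟨h, h'⟩ hj⟩
  choose t ht using hex
  have hmem : 2 * n ∈ range (hh p + 1) := by
    rw [mem_range]
    omega
  have hs : ∑ j ∈ (range (hh p + 1)).erase (2 * n), T p j = p * ∑ j ∈ (range (hh p + 1)).erase (2 * n), t j := by
    rw [mul_sum]
    refine sum_congr rfl fun j hj => ?_
    rw [mem_erase, mem_range] at hj
    exact (ht j (by omega) hj.1).1
  have hf : ((∑ j ∈ (range (hh p + 1)).erase (2 * n), t j : ℤ) : ZMod p) = 0 := by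
    have h5 := f_one_zero hn
    rw [eval_f, ← add_sum_erase _ _ hmem, ph_zero hn, zero_mul, zero_add] at h5
    rw [← h5]
    push_cast
    refine sum_congr rfl fun j hj => ?_
    rw [mem_erase, mem_range] at hj
    rw [(ht j (by omega) hj.1).2, one_pow, mul_one]
  rw [ZMod.intCast_zmod_eq_zero_iff_dvd] at hf
  have h6 : (p : ℤ) ^ 2 ∣ ∑ j ∈ (range (hh p + 1)).erase (2 * n), T p j := by
    rw [hs, sq]
    exact mul_dvd_mul_left _ hf
  have h7 := T_mid hp hn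
  rw [hsum, ← add_sum_erase _ _ hmem]
  have h8 := dvd_add h7 h6
  have e : T p (2 * n) + ∑ x ∈ (range (hh p + 1)).erase (2 * n), T p x - ((2 * (2 * n)).choose (2 * n) : ℤ)
      = T p (2 * n) - ((2 * (2 * n)).choose (2 * n) : ℤ) + ∑ j ∈ (range (hh p + 1)).erase (2 * n), T p j := by
    ring
  rw [e]
  exact h8

end Pool.Agent.Results.MP_2064c1_nt.PartialSums
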